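import Mathlib

namespace Pool.Agent.Results.MP_28b0d6_al.SubdivisionFailsWLP

open MvPolynomial RingTheory.Sequence

universe u

lemma ext_reg {S : Type u} [CommRing S] (rs : List S) :
    ∀ {M₁ M₂ M₃ : Type u} [AddCommGroup M₁] [AddCommGroup M₂] [AddCommGroup M₃]
      [Module S M₁] [Module S M₂] [Module S M₃] (f : M₁ →ₗ[S] M₂) (g : M₂ →ₗ[S] M₃),
      Function.Injective f → Function.Exact f g → Function.Surjective g →
      IsWeaklyRegular M₁ rs → IsWeaklyRegular M₃ rs → IsWeaklyRegular M₂ rs := by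
  induction rs with
  | nil => intros; exact IsWeaklyRegular.nil _ _
  | cons r rs ih =>
    intro M₁ M₂ M₃ _ _ _ _ _ _ f g hf hfg hg h1 h3
    rw [isWeaklyRegular_cons_iff] at h1 h3 ⊢
    refine ⟨isSMulRegular_of_range_eq_ker hf (LinearMap.exact_iff.mp hfg).symm h1.1 h3.1, ?_⟩
    refine ih (QuotSMulTop.map r f) (QuotSMulTop.map r g) ?_ (QuotSMulTop.map_exact r hfg hg)
      (QuotSMulTop.map_surjective r hg) h1.2 h3.2
    have h0 : Function.Exact (0 : M₁ →ₗ[S] M₁) f := by
      intro x
      simp only [LinearMap.zero_apply, Set.mem_range, exists_const]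
      exact ⟨fun h => (hf (by simpa using h)).symm, fun h => by simp [← h]⟩
    have := QuotSMulTop.map_first_exact_on_four_term_exact_of_isSMulRegular_last h0 hfg h3.1
    rw [map_zero] at this
    rw [← LinearMap.ker_eq_bot, LinearMap.exact_iff.mp this, LinearMap.range_zero]

lemma reg_iff {S : Type u} [CommRing S] (I J : Ideal S) (r : S) :
    IsSMulRegular ((S ⧸ I) ⧸ (J • ⊤ : Submodule S (S ⧸ I))) r ↔
      ∀ f, r * f ∈ J ⊔ I → f ∈ J ⊔ I := by
  have hm : ∀ f : S, Ideal.Quotient.mk I f ∈ (J • ⊤ : Submodule S (S ⧸ I)) ↔ f ∈ J ⊔ I := by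
    intro f
    rw [Ideal.smul_top_eq_map, Submodule.restrictScalars_mem, Ideal.Quotient.algebraMap_eq,
      Ideal.mem_quotient_iff_mem_sup]
  rw [isSMulRegular_quotient_iff_mem_of_smul_mem]
  constructor
  · intro h f hf
    rw [← hm] at hf ⊢
    exact h _ hf
  · intro h x hx
    obtain ⟨f, rfl⟩ := Ideal.Quotient.mk_surjective x
    rw [hm]
    apply h
    rw [← hm]
    exact hx

variable {K : Type u} [Field K] {V : Type} [DecidableEq V]

noncomputable def J (K : Type u) [Field K] (D : Finset V → Prop) : Ideal (MvPolynomial V K) :=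
  Ideal.span ((fun s => monomial s (1 : K)) '' {m | ¬ D m.support})

def Down (D : Finset V → Prop) : Prop := ∀ s t, s ⊆ t → D t → D s

omit [DecidableEq V] in
lemma mem_J {D : Finset V → Prop} (hD : Down D) {f : MvPolynomial V K} :
    f ∈ J K D ↔ ∀ m ∈ f.support, ¬ D m.support := by
  rw [J, mem_ideal_span_monomial_image]
  refine forall₂_congr fun m _ => ⟨?_, fun h => ⟨m, h, le_rfl⟩⟩
  rintro ⟨s, hs, hsm⟩ h
  exact hs (hD _ _ (Finsupp.support_mono hsm) h)

noncomputable def ind (s : Finset V) : V →₀ ℕ := ∑ v ∈ s, Finsupp.single v 1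

lemma ind_apply (s : Finset V) (v : V) : ind s v = if v ∈ s then 1 else 0 := by
  simp [ind, Finsupp.finsetSum_apply, Finsupp.single_apply]

lemma ind_support (s : Finset V) : (ind s).support = s := by
  ext v; simp [ind_apply]

lemma ind_le {s : Finset V} {m : V →₀ ℕ} (h : s ⊆ m.support) : ind s ≤ m := by
  intro v
  rw [ind_apply]
  split_ifs with hv
  · exact Nat.one_le_iff_ne_zero.mpr (Finsupp.mem_support_iff.mp (h hv))
  · exact Nat.zero_le _

lemma supp_add (a b : V →₀ ℕ) : (a + b).support = a.support ∪ b.support := by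
  ext v; simp; omega

omit [DecidableEq V] in
lemma down_sub (F : Finset V) : Down (fun s => s ⊆ F) := fun _ _ h h' => h.trans h'

lemma shell_step (rs : List (MvPolynomial V K)) {D D' : Finset V → Prop} (hD' : Down D')
    (R F : Finset V) (hRF : R ⊆ F) (h1 : ∀ s, D s ↔ D' s ∨ s ⊆ F)
    (h2 : ∀ s, s ⊆ F → (D' s ↔ ¬ R ⊆ s))
    (r1 : IsWeaklyRegular (MvPolynomial V K ⧸ J K (fun s => s ⊆ F)) rs)
    (r2 : IsWeaklyRegular (MvPolynomial V K ⧸ J K D') rs) :
    IsWeaklyRegular (MvPolynomial V K ⧸ J K D) rs := by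
  have hD : Down D := by
    intro s t h ht
    rw [h1] at ht ⊢
    exact ht.imp (hD' _ _ h) h.trans
  have hR : ¬ D' R := fun h => (h2 R hRF).mp h subset_rfl
  have hsupp : ∀ (f : MvPolynomial V K) (m : V →₀ ℕ), m ∈ (monomial (ind R) (1 : K) * f).support ↔
      ∃ m' ∈ f.support, m = ind R + m' := by
    intro f m
    rw [mem_support_iff, coeff_monomial_mul']
    constructor
    · intro h
      split_ifs at h with hle
      · exact ⟨m - ind R, by simpa using h, (add_tsub_cancel_of_le hle).symm⟩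
      · exact absurd rfl h
    · rintro ⟨m', hm', rfl⟩
      simpa using hm'
  have key : ∀ f : MvPolynomial V K, monomial (ind R) (1 : K) * f ∈ J K D ↔
      f ∈ J K (fun s => s ⊆ F) := by
    intro f
    rw [mem_J hD, mem_J (down_sub F)]
    constructor
    · intro h m hm hF
      refine h _ ((hsupp f _).mpr ⟨m, hm, rfl⟩) ((h1 _).mpr (Or.inr ?_))
      rw [supp_add, ind_support]
      exact Finset.union_subset hRF hF
    · intro h m hm hm'
      obtain ⟨m', hm'', rfl⟩ := (hsupp f _).mp hm
      rw [supp_add, ind_support, h1] at hm'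
      rcases hm' with h' | h'
      · exact hR (hD' _ _ Finset.subset_union_left h')
      · exact h _ hm'' (Finset.subset_union_right.trans h')
  have hle : J K D ≤ J K D' := by
    intro f hf
    rw [mem_J hD] at hf
    rw [mem_J hD']
    exact fun m hm h => hf m hm ((h1 _).mpr (Or.inl h))
  refine ext_reg rs
    (Submodule.mapQ (J K (fun s => s ⊆ F)) (J K D)
      (LinearMap.mulLeft _ (monomial (ind R) (1 : K))) (fun f hf => (key f).mpr hf))
    (Submodule.mapQ (J K D) (J K D') LinearMap.id hle) ?_ ?_ ?_ r1 r2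
  · rw [← LinearMap.ker_eq_bot, eq_bot_iff]
    intro x hx
    obtain ⟨f, rfl⟩ := Submodule.Quotient.mk_surjective _ x
    rw [LinearMap.mem_ker, Submodule.mapQ_apply, Submodule.Quotient.mk_eq_zero] at hx
    exact (Submodule.Quotient.mk_eq_zero _).mpr ((key f).mp hx)
  · intro x
    obtain ⟨g, rfl⟩ := Submodule.Quotient.mk_surjective _ x
    rw [Submodule.mapQ_apply, Submodule.Quotient.mk_eq_zero, LinearMap.id_apply, mem_J hD']
    constructor
    · intro hg
      classical
      refine ⟨Submodule.Quotient.mk (∑ m ∈ g.support.filter (fun m => m.support ⊆ F),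
        monomial (m - ind R) (coeff m g)), ?_⟩
      rw [Submodule.mapQ_apply, Submodule.Quotient.eq, LinearMap.mulLeft_apply, Finset.mul_sum]
      have e : ∑ m ∈ g.support.filter (fun m => m.support ⊆ F),
          monomial (ind R) (1 : K) * monomial (m - ind R) (coeff m g) =
          ∑ m ∈ g.support.filter (fun m => m.support ⊆ F), monomial m (coeff m g) := by
        refine Finset.sum_congr rfl fun m hm => ?_
        rw [Finset.mem_filter] at hm
        have : R ⊆ m.support := by
          by_contra h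
          exact hg m hm.1 ((h2 _ hm.2).mpr h)
        rw [monomial_mul, one_mul, add_tsub_cancel_of_le (ind_le this)]
      rw [e]
      have e2 : g = ∑ m ∈ g.support.filter (fun m => m.support ⊆ F), monomial m (coeff m g) +
          ∑ m ∈ g.support.filter (fun m => ¬ m.support ⊆ F), monomial m (coeff m g) := by
        rw [Finset.sum_filter_add_sum_filter_not]; exact g.as_sum
      have e3 : ∑ m ∈ g.support.filter (fun m => m.support ⊆ F), monomial m (coeff m g) - g =
          - ∑ m ∈ g.support.filter (fun m => ¬ m.support ⊆ F), monomial m (coeff m g) := by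
        linear_combination -e2
      rw [e3]
      refine neg_mem (Submodule.sum_mem _ fun m hm => ?_)
      rw [Finset.mem_filter] at hm
      rw [mem_J hD]
      intro m' hm' h
      have : m' = m := by simpa using support_monomial_subset hm'
      subst this
      rcases (h1 _).mp h with h | h
      · exact hg _ hm.1 h
      · exact hm.2 h
    · rintro ⟨y, hy⟩
      obtain ⟨f, rfl⟩ := Submodule.Quotient.mk_surjective _ y
      rw [Submodule.mapQ_apply, Submodule.Quotient.eq, LinearMap.mulLeft_apply] at hy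
      have h3 : monomial (ind R) (1 : K) * f ∈ J K D' := by
        rw [mem_J hD']
        intro m hm h
        obtain ⟨m', -, rfl⟩ := (hsupp f _).mp hm
        rw [supp_add, ind_support] at h
        exact hR (hD' _ _ Finset.subset_union_left h)
      have h4 := sub_mem h3 (hle hy)
      rw [sub_sub_cancel, mem_J hD'] at h4
      exact h4
  · intro x
    obtain ⟨g, rfl⟩ := Submodule.Quotient.mk_surjective _ x
    exact ⟨Submodule.Quotient.mk g, rfl⟩

lemma P_reg (T : Finset V) (x : V) (hx : x ∈ T) (f : MvPolynomial V K)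
    (h : X x * f ∈ J K (fun s => s ⊆ T)) : f ∈ J K (fun s => s ⊆ T) := by
  rw [mem_J (down_sub T)] at h ⊢
  intro m hm hT
  refine h (Finsupp.single x 1 + m) (by rw [mem_support_iff, coeff_X_mul]; simpa using hm) ?_
  rw [supp_add, Finsupp.support_single_ne_zero _ one_ne_zero]
  exact Finset.union_subset (by simpa) hT

lemma X_mem_P (T : Finset V) (x : V) (hx : x ∉ T) : (X x : MvPolynomial V K) ∈ J K (fun s => s ⊆ T) := by
  rw [mem_J (down_sub T)]
  intro m hm h
  rw [support_X, Finset.mem_singleton] at hm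
  subst hm
  rw [Finsupp.support_single_ne_zero _ one_ne_zero] at h
  exact hx (by simpa using h)

lemma P_mono {T T' : Finset V} (h : T' ⊆ T) : J K (fun s => s ⊆ T) ≤ J K (fun s => s ⊆ T') := by
  intro f hf
  rw [mem_J (down_sub _)] at hf ⊢
  exact fun m hm h' => hf m hm (h'.trans h)

lemma P_sup (T : Finset V) (x : V) (t : MvPolynomial V K) (ht : t - X x ∈ J K (fun s => s ⊆ T)) :
    Ideal.span {t} ⊔ J K (fun s => s ⊆ T) = J K (fun s => s ⊆ T.erase x) := by
  apply le_antisymm
  · refine sup_le ?_ (P_mono (Finset.erase_subset _ _))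
    rw [Ideal.span_singleton_le_iff_mem]
    have := add_mem (P_mono (Finset.erase_subset x T) ht) (X_mem_P (K := K) (T.erase x) x (by simp))
    simpa using this
  · rw [J, Ideal.span_le]
    rintro _ ⟨m, hm, rfl⟩
    by_cases hT : m.support ⊆ T
    · have hx : x ∈ m.support := by
        by_contra hx
        exact hm (Finset.subset_erase.mpr ⟨hT, hx⟩)
      have hX : (X x : MvPolynomial V K) ∈ Ideal.span {t} ⊔ J K (fun s => s ⊆ T) := by
        have := sub_mem (Submodule.mem_sup_left (Ideal.mem_span_singleton_self t))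
          (Submodule.mem_sup_right (S := Ideal.span {t}) ht)
        simpa using this
      have e : (monomial m (1 : K)) = monomial (m - Finsupp.single x 1) 1 * X x := by
        rw [X, monomial_mul, one_mul, tsub_add_cancel_of_le]
        exact Finsupp.single_le_iff.mpr
          (Nat.one_le_iff_ne_zero.mpr (Finsupp.mem_support_iff.mp hx))
      show monomial m (1 : K) ∈ _
      rw [e]
      exact Ideal.mul_mem_left _ _ hX
    · exact Submodule.mem_sup_right (Ideal.subset_span ⟨m, hT, rfl⟩)

lemma facet_reg (x y z : V) (hxy : x ≠ y) (hxz : x ≠ z) (hyz : y ≠ z) (a b c : MvPolynomial V K)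
    (ha : a - X x ∈ J K (fun s => s ⊆ {x, y, z})) (hb : b - X y ∈ J K (fun s => s ⊆ {x, y, z}))
    (hc : c - X z ∈ J K (fun s => s ⊆ {x, y, z})) :
    IsWeaklyRegular (MvPolynomial V K ⧸ J K (fun s => s ⊆ {x, y, z})) [a, b, c] := by
  have aux : ∀ (T : Finset V) (w : V) (t : MvPolynomial V K), w ∈ T →
      t - X w ∈ J K (fun s => s ⊆ T) → ∀ f, t * f ∈ J K (fun s => s ⊆ T) →
        f ∈ J K (fun s => s ⊆ T) := by
    intro T w t hw ht f hf
    apply P_reg T w hw
    have := sub_mem hf (Ideal.mul_mem_right f _ ht)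
    rwa [show t * f - (t - X w) * f = X w * f by ring] at this
  have e1 := P_sup _ x a ha
  have hb' := P_mono (Finset.erase_subset x _) hb
  have e2 := P_sup _ y b hb'
  have hc' := P_mono (Finset.erase_subset y _) (P_mono (Finset.erase_subset x _) hc)
  refine ⟨fun i hi => ?_⟩
  rw [reg_iff]
  have : i = 0 ∨ i = 1 ∨ i = 2 := by simp at hi; omega
  rcases this with rfl | rfl | rfl
  · simpa using aux _ x a (by simp) ha
  · have : Ideal.ofList (List.take 1 [a, b, c]) = Ideal.span {a} := Ideal.ofList_singleton a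
    rw [this, e1]
    exact aux _ y b (by simp [hxy.symm]) hb'
  · have : Ideal.ofList (List.take 2 [a, b, c]) = Ideal.span {b} ⊔ Ideal.span {a} := by
      show Ideal.ofList [a, b] = _
      rw [Ideal.ofList_cons, Ideal.ofList_singleton, sup_comm]
    rw [this, sup_assoc, e1, e2]
    exact aux _ z c (by simp [hxz.symm, hyz.symm]) hc'

/-- A finite abstract simplicial complex, given by its set of nonempty faces (cells). -/
def IsComplex {n : ℕ} (G : Finset (Finset (Fin n))) : Prop :=
  (∀ s ∈ G, s.Nonempty) ∧ ∀ s ∈ G, ∀ t, t.Nonempty → t ⊆ s → t ∈ G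

/-- The vertices of the barycentric subdivision: the cells of `G`. -/
abbrev Vx {n : ℕ} (G : Finset (Finset (Fin n))) : Type := {s // s ∈ G}

/-- The faces of the barycentric subdivision: the chains of cells. -/
def IsChainFace {n : ℕ} {G : Finset (Finset (Fin n))} (σ : Finset (Vx G)) : Prop :=
  ∀ a ∈ σ, ∀ b ∈ σ, a.1 ⊆ b.1 ∨ b.1 ⊆ a.1

/-- The Stanley-Reisner ideal of the barycentric subdivision of `G`. -/
noncomputable def SR (K : Type u) [Field K] {n : ℕ} (G : Finset (Finset (Fin n))) :
    Ideal (MvPolynomial (Vx G) K) :=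
  Ideal.span {f | ∃ σ : Finset (Vx G), ¬ IsChainFace σ ∧ f = ∏ v ∈ σ, X v}

lemma chain_down {n : ℕ} {G : Finset (Finset (Fin n))} : Down (IsChainFace (G := G)) :=
  fun _ _ h ht a ha b hb => ht a (h ha) b (h hb)

lemma prod_X_eq (s : Finset V) : (∏ v ∈ s, X v : MvPolynomial V K) = monomial (ind s) 1 := by
  rw [ind, monomial_sum_one]; rfl

lemma SR_eq {n : ℕ} (G : Finset (Finset (Fin n))) : SR K G = J K IsChainFace := by
  apply le_antisymm
  · rw [SR, Ideal.span_le]
    rintro _ ⟨s, hs, rfl⟩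
    exact Ideal.subset_span ⟨ind s, by simpa [ind_support] using hs, (prod_X_eq s).symm⟩
  · rw [J, Ideal.span_le]
    rintro _ ⟨m, hm, rfl⟩
    have e : (monomial m (1 : K)) = monomial (m - ind m.support) 1 * ∏ v ∈ m.support, X v := by
      rw [prod_X_eq, monomial_mul, one_mul, tsub_add_cancel_of_le (ind_le subset_rfl)]
    show monomial m (1 : K) ∈ _
    rw [e]
    exact Ideal.mul_mem_left _ _ (Ideal.subset_span ⟨_, hm, rfl⟩)

def Gam : Finset (Finset (Fin 6)) :=
  Finset.univ.filter fun s => s.Nonempty ∧ s.card ≤ 3 ∧ (5 ∈ s → s ⊆ {0, 1, 5})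

def cd : Fin 29 → Finset (Fin 6) := ![{0}, {1}, {2}, {3}, {4}, {5}, {0, 1}, {0, 2}, {0, 3}, {0, 4}, {0, 5}, {1, 2}, {1, 3}, {1, 4}, {1, 5}, {2, 3}, {2, 4}, {3, 4}, {0, 1, 2}, {0, 1, 3}, {0, 1, 4}, {0, 1, 5}, {0, 2, 3}, {0, 2, 4}, {0, 3, 4}, {1, 2, 3}, {1, 2, 4}, {1, 3, 4}, {2, 3, 4}]

lemma cd_mem : ∀ i, cd i ∈ Gam := by decide +kernel

def c (i : Fin 29) : Vx Gam := ⟨cd i, cd_mem i⟩

lemma cd_inj : ∀ i j, cd i = cd j → i = j := by decide +kernel

lemma c_inj : Function.Injective c := fun i j h => cd_inj i j (congrArg Subtype.val h)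

lemma cd_surj : ∀ s ∈ Gam, ∃ i, cd i = s := by decide +kernel

lemma c_surj : Function.Surjective c := fun v => by
  obtain ⟨i, hi⟩ := cd_surj v.1 v.2
  exact ⟨i, Subtype.ext hi⟩

def FL : List (Fin 29 × Fin 29 × Fin 29) := [(0, 6, 18), (0, 6, 19), (0, 6, 20), (0, 6, 21), (0, 7, 18), (0, 7, 22), (0, 7, 23), (0, 8, 19), (0, 8, 22), (0, 8, 24), (0, 9, 20), (0, 9, 23), (0, 9, 24), (0, 10, 21), (1, 6, 18), (1, 6, 19), (1, 6, 20), (1, 6, 21), (1, 11, 18), (1, 11, 25), (1, 11, 26), (1, 12, 19), (1, 12, 25), (1, 12, 27), (1, 13, 20), (1, 13, 26), (1, 13, 27), (1, 14, 21), (2, 7, 18), (2, 7, 22), (2, 7, 23), (2, 11, 18), (2, 11, 25), (2, 11, 26), (2, 15, 22), (2, 15, 25), (2, 15, 28), (2, 16, 23), (2, 16, 26), (2, 16, 28), (3, 8, 19), (3, 8, 22), (3, 8, 24), (3, 12, 19), (3, 12, 25), (3, 12, 27), (3, 15, 22), (3, 15, 25), (3, 15, 28), (3, 17, 24), (3, 17, 27), (3, 17, 28), (4, 9, 20), (4, 9, 23), (4, 9, 24), (4, 13, 20), (4, 13, 26), (4, 13, 27), (4, 16, 23), (4, 16, 26), (4, 16, 28), (4, 17,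 24), (4, 17, 27), (4, 17, 28), (5, 10, 21), (5, 14, 21)]

def RL : List (Bool × Bool × Bool) := [(false, false, false), (false, false, true), (false, false, true), (false, false, true), (false, true, false), (false, false, true), (false, false, true), (false, true, false), (false, true, true), (false, false, true), (false, true, false), (false, true, true), (false, true, true), (false, true, false), (true, false, false), (true, false, true), (true, false, true), (true, false, true), (false, true, false), (false, false, true), (false, false, true), (false, true, false), (false, true, true), (false, false, true), (false, true, false), (false, true, true), (false, true, true), (false, true, false), (true, false, false), (true, false, true), (true, false, true), (true, true, false), (true, false, true), (true, false, true), (false, true, false), (false, true, true), (false, false, true), (false, true, false), (false, true, true), (false, true, true), (true, false, false), (true, false, true),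 (true, false, true), (true, true, false), (true, false, true), (true, false, true), (true, true, false), (true, true, true), (true, false, true), (false, true, false), (false, true, true), (false, true, true), (true, false, false), (true, false, true), (true, false, true), (true, true, false), (true, false, true), (true, false, true), (true, true, false), (true, true, true), (true, false, true), (true, true, false), (true, true, true), (true, true, true), (true, false, false), (true, true, false)]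

def F3 (k : ℕ) : Fin 29 × Fin 29 × Fin 29 := FL.getD k (0, 6, 18)

def F0 (k : ℕ) : Finset (Fin 29) := {(F3 k).1, (F3 k).2.1, (F3 k).2.2}

def R3 (k : ℕ) : Bool × Bool × Bool := RL.getD k (true, true, true)

def R0 (k : ℕ) : Finset (Fin 29) := (F0 k).filter fun a =>
  (a = (F3 k).1 ∧ (R3 k).1) ∨ (a = (F3 k).2.1 ∧ (R3 k).2.1) ∨ (a = (F3 k).2.2 ∧ (R3 k).2.2)

def inF (j : ℕ) (a : Fin 29) : Bool :=
  a.val == (F3 j).1.val || a.val == (F3 j).2.1.val || a.val == (F3 j).2.2.val

lemma inF_iff (j : ℕ) (a : Fin 29) : inF j a = true ↔ a ∈ F0 j := by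
  simp [inF, F0, Fin.val_inj, or_assoc]

def chk (k : ℕ) (e1 e2 e3 : Bool) : Bool :=
  (List.range k).any (fun j => (!e1 || inF j (F3 k).1) && (!e2 || inF j (F3 k).2.1) &&
    (!e3 || inF j (F3 k).2.2)) ==
  !((!(R3 k).1 || e1) && (!(R3 k).2.1 || e2) && (!(R3 k).2.2 || e3))

lemma chk_all : (List.range 66).all (fun k => [true, false].all fun e1 => [true, false].all fun e2 =>
    [true, false].all fun e3 => chk k e1 e2 e3) = true := by decide +kernel

lemma shell0 (k : ℕ) (hk : k < 66) (t : Finset (Fin 29)) (ht : t ⊆ F0 k) :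
    ((∃ j < k, t ⊆ F0 j) ↔ ¬ R0 k ⊆ t) := by
  have h := chk_all
  simp only [List.all_eq_true, List.mem_range] at h
  have h1 := h k hk (decide ((F3 k).1 ∈ t)) (by cases decide ((F3 k).1 ∈ t) <;> simp)
    (decide ((F3 k).2.1 ∈ t)) (by cases decide ((F3 k).2.1 ∈ t) <;> simp)
    (decide ((F3 k).2.2 ∈ t)) (by cases decide ((F3 k).2.2 ∈ t) <;> simp)
  have e1 : ∀ j, t ⊆ F0 j ↔ ((F3 k).1 ∈ t → (F3 k).1 ∈ F0 j) ∧ ((F3 k).2.1 ∈ t → (F3 k).2.1 ∈ F0 j) ∧
      ((F3 k).2.2 ∈ t → (F3 k).2.2 ∈ F0 j) := by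
    intro j
    refine ⟨fun h => ⟨fun h' => h h', fun h' => h h', fun h' => h h'⟩, fun ⟨a1, a2, a3⟩ a ha => ?_⟩
    have := ht ha
    simp only [F0, Finset.mem_insert, Finset.mem_singleton] at this
    rcases this with rfl | rfl | rfl
    exacts [a1 ha, a2 ha, a3 ha]
  have e2 : R0 k ⊆ t ↔ ((R3 k).1 → (F3 k).1 ∈ t) ∧ ((R3 k).2.1 → (F3 k).2.1 ∈ t) ∧
      ((R3 k).2.2 → (F3 k).2.2 ∈ t) := by
    constructor
    · intro h
      refine ⟨fun h' => h ?_, fun h' => h ?_, fun h' => h ?_⟩ <;> simp [R0, F0, h']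
    · rintro ⟨a1, a2, a3⟩ a ha
      rcases (Finset.mem_filter.mp ha).2 with ⟨rfl, h⟩ | ⟨rfl, h⟩ | ⟨rfl, h⟩
      exacts [a1 h, a2 h, a3 h]
  rw [e2]
  simp only [e1]
  rw [chk, beq_iff_eq, Bool.eq_iff_iff] at h1
  simpa [inF_iff, imp_iff_not_or, and_assoc, or_assoc] using h1

lemma card0 : ∀ k < 66, (cd (F3 k).1).card = 1 ∧ (cd (F3 k).2.1).card = 2 ∧
    (cd (F3 k).2.2).card = 3 := by decide +kernel

lemma chain0 : ∀ k < 66, ∀ a ∈ F0 k, ∀ b ∈ F0 k, cd a ⊆ cd b ∨ cd b ⊆ cd a := by decide +kernel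

lemma cover0 : ∀ a b, cd a ⊆ cd b → ∀ d, cd b ⊆ cd d → ∃ k < 66, a ∈ F0 k ∧ b ∈ F0 k ∧ d ∈ F0 k := by
  decide +kernel

lemma cardP : Fintype.card {ab : Vx Gam × Vx Gam // ab.1.1 ⊆ ab.2.1 ∧ 5 ∉ ab.2.1} = 105 := by
  decide +kernel

lemma cardV0 : Fintype.card {a : Vx Gam // 5 ∉ a.1} = 25 := by
  decide +kernel

def DD (k : ℕ) (s : Finset (Vx Gam)) : Prop := ∃ j < k, s ⊆ (F0 j).image c

lemma DD_down (k : ℕ) : Down (DD k) := fun _ _ h ⟨j, hj, h'⟩ => ⟨j, hj, h.trans h'⟩

noncomputable def th (K : Type u) [Field K] (i : ℕ) : MvPolynomial (Vx Gam) K :=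
  ∑ v ∈ Finset.univ.filter (fun v : Vx Gam => v.1.card = i), X v

lemma th_sub (T : Finset (Vx Gam)) (x : Vx Gam) (h : ∀ y ∈ T, y.1.card = x.1.card → y = x) :
    th K x.1.card - X x ∈ J K (fun s => s ⊆ T) := by
  rw [th, ← Finset.add_sum_erase _ _ (a := x) (by simp), add_sub_cancel_left]
  refine Submodule.sum_mem _ fun y hy => X_mem_P _ _ fun hT => ?_
  simp only [Finset.mem_erase, Finset.mem_filter] at hy
  exact hy.1 (h y hT hy.2.2)

lemma reg_DD (k : ℕ) (hk : k ≤ 66) :
    IsWeaklyRegular (MvPolynomial (Vx Gam) K ⧸ J K (DD k)) [th K 1, th K 2, th K 3] := by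
  induction k with
  | zero =>
    refine ⟨fun i hi => ?_⟩
    rw [reg_iff]
    intro f _
    refine Submodule.mem_sup_right ((mem_J (DD_down 0)).mpr ?_)
    rintro m - ⟨j, hj, -⟩
    omega
  | succ k ih =>
    obtain ⟨c1, c2, c3⟩ := card0 k (by omega)
    refine shell_step _ (DD_down k) ((R0 k).image c) ((F0 k).image c)
      (Finset.image_subset_image (Finset.filter_subset _ _)) ?_ ?_ ?_ (ih (by omega))
    · intro s
      constructor
      · rintro ⟨j, hj, h⟩
        rcases Nat.lt_succ_iff_lt_or_eq.mp hj with hj | rfl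
        · exact Or.inl ⟨j, hj, h⟩
        · exact Or.inr h
      · rintro (⟨j, hj, h⟩ | h)
        · exact ⟨j, by omega, h⟩
        · exact ⟨k, by omega, h⟩
    · intro s hs
      obtain ⟨t, ht, rfl⟩ := Finset.subset_image_iff.mp hs
      simp only [DD, Finset.image_subset_image_iff c_inj]
      exact shell0 k (by omega) t ht
    · have e : (F0 k).image c = {c (F3 k).1, c (F3 k).2.1, c (F3 k).2.2} := by simp [F0]
      rw [e]
      have d1 : (c (F3 k).1).1.card = 1 := c1
      have d2 : (c (F3 k).2.1).1.card = 2 := c2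
      have d3 : (c (F3 k).2.2).1.card = 3 := c3
      generalize c (F3 k).1 = x at *
      generalize c (F3 k).2.1 = y at *
      generalize c (F3 k).2.2 = z at *
      refine facet_reg x y z (by rintro rfl; omega) (by rintro rfl; omega) (by rintro rfl; omega)
        _ _ _ ?_ ?_ ?_
      · rw [← d1]; apply th_sub
        simp only [Finset.mem_insert, Finset.mem_singleton]
        rintro w (rfl | rfl | rfl) h <;> first | rfl | omega
      · rw [← d2]; apply th_sub
        simp only [Finset.mem_insert, Finset.mem_singleton]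
        rintro w (rfl | rfl | rfl) h <;> first | rfl | omega
      · rw [← d3]; apply th_sub
        simp only [Finset.mem_insert, Finset.mem_singleton]
        rintro w (rfl | rfl | rfl) h <;> first | rfl | omega

lemma card_mem (v : Vx Gam) : v.1.card = 1 ∨ v.1.card = 2 ∨ v.1.card = 3 := by
  have := v.2
  simp only [Gam, Finset.mem_filter] at this
  have h1 := this.2.1.card_pos
  omega

lemma eq_of_card {a b : Vx Gam} (h : a.1 ⊆ b.1 ∨ b.1 ⊆ a.1) (hc : a.1.card = b.1.card) : a = b := by
  rcases h with h | h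
  · exact Subtype.ext (Finset.eq_of_subset_of_card_le h hc.ge)
  · exact Subtype.ext (Finset.eq_of_subset_of_card_le h hc.le).symm

lemma DD_iff (s : Finset (Vx Gam)) : DD 66 s ↔ IsChainFace s := by
  constructor
  · rintro ⟨j, hj, h⟩ a ha b hb
    obtain ⟨a', ha', rfl⟩ := Finset.mem_image.mp (h ha)
    obtain ⟨b', hb', rfl⟩ := Finset.mem_image.mp (h hb)
    exact chain0 j hj a' ha' b' hb'
  · intro h
    rcases s.eq_empty_or_nonempty with rfl | hs
    · exact ⟨0, by norm_num, by simp⟩
    obtain ⟨a, ha, hmin⟩ := s.exists_min_image (fun v => v.1.card) hs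
    obtain ⟨d, hd, hmax⟩ := s.exists_max_image (fun v => v.1.card) hs
    have hle : ∀ x ∈ s, ∀ y ∈ s, x.1.card ≤ y.1.card → x.1 ⊆ y.1 := by
      intro x hx y hy hxy
      rcases h x hx y hy with h | h
      · exact h
      · rw [Finset.eq_of_subset_of_card_le h hxy]
    have : ∃ b ∈ s, ∀ x ∈ s, x = a ∨ x = b ∨ x = d := by
      by_cases hb : ∃ b ∈ s, b.1.card = 2
      · obtain ⟨b, hb, hb2⟩ := hb
        refine ⟨b, hb, fun x hx => ?_⟩
        have h1 := hmin x hx
        have h2 := hmax x hx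
        have h3 := card_mem a
        have h4 := card_mem d
        rcases card_mem x with h5 | h5 | h5
        · exact Or.inl (eq_of_card (h x hx a ha) (by omega))
        · exact Or.inr (Or.inl (eq_of_card (h x hx b hb) (by omega)))
        · exact Or.inr (Or.inr (eq_of_card (h x hx d hd) (by omega)))
      · refine ⟨a, ha, fun x hx => ?_⟩
        have h1 := hmin x hx
        have h2 := hmax x hx
        have h3 := card_mem a
        have h4 := card_mem d
        rcases card_mem x with h5 | h5 | h5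
        · exact Or.inl (eq_of_card (h x hx a ha) (by omega))
        · exact absurd ⟨x, hx, h5⟩ hb
        · exact Or.inr (Or.inr (eq_of_card (h x hx d hd) (by omega)))
    obtain ⟨b, hb, hall⟩ := this
    obtain ⟨a', rfl⟩ := c_surj a
    obtain ⟨b', rfl⟩ := c_surj b
    obtain ⟨d', rfl⟩ := c_surj d
    obtain ⟨k, hk, k1, k2, k3⟩ := cover0 a' b' (hle _ ha _ hb (hmin _ hb)) d'
      (hle _ hb _ hd (hmax _ hb))
    refine ⟨k, hk, fun x hx => ?_⟩
    rcases hall x hx with rfl | rfl | rfl
    exacts [Finset.mem_image_of_mem _ k1, Finset.mem_image_of_mem _ k2, Finset.mem_image_of_mem _ k3]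

lemma th_hom (i : ℕ) : (th K i).IsHomogeneous 1 :=
  IsHomogeneous.sum _ _ _ fun v _ => isHomogeneous_X _ v

lemma mem_SR {f : MvPolynomial (Vx Gam) K} :
    f ∈ SR K Gam ↔ ∀ m ∈ f.support, ¬ IsChainFace m.support := by
  rw [SR_eq, mem_J chain_down]

lemma coeff_SR {f : MvPolynomial (Vx Gam) K} (hf : f ∈ SR K Gam) {m : Vx Gam →₀ ℕ}
    (hm : IsChainFace m.support) : coeff m f = 0 := by
  by_contra h
  exact mem_SR.mp hf m (mem_support_iff.mpr h) hm

lemma reg_SR : IsRegular (MvPolynomial (Vx Gam) K ⧸ SR K Gam) [th K 1, th K 2, th K 3] := by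
  refine ⟨?_, ?_⟩
  · have : DD 66 = IsChainFace := funext fun s => propext (DD_iff s)
    rw [SR_eq, ← this]
    exact reg_DD 66 le_rfl
  · intro h
    have h1 : (1 : MvPolynomial (Vx Gam) K ⧸ SR K Gam) ∈
      (⊤ : Submodule (MvPolynomial (Vx Gam) K) (MvPolynomial (Vx Gam) K ⧸ SR K Gam)) := trivial
    rw [h, Ideal.smul_top_eq_map, Submodule.restrictScalars_mem, Ideal.Quotient.algebraMap_eq,
      ← map_one (Ideal.Quotient.mk _), Ideal.mem_quotient_iff_mem_sup] at h1
    have hle : Ideal.ofList [th K 1, th K 2, th K 3] ⊔ SR K Gam ≤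
        RingHom.ker (constantCoeff : MvPolynomial (Vx Gam) K →+* K) := by
      refine sup_le ?_ fun f hf => coeff_SR hf (by simp [IsChainFace])
      rw [Ideal.ofList, Ideal.span_le]
      intro x hx
      simp only [List.mem_cons, List.not_mem_nil, or_false, Set.mem_setOf_eq] at hx
      rcases hx with rfl | rfl | rfl
      exacts [(th_hom (K := K) 1).coeff_eq_zero (d := 0) (by simp),
        (th_hom (K := K) 2).coeff_eq_zero (d := 0) (by simp),
        (th_hom (K := K) 3).coeff_eq_zero (d := 0) (by simp)]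
    simpa using hle h1

lemma XX_mem {a b : Vx Gam} (h : ¬ (a.1 ⊆ b.1 ∨ b.1 ⊆ a.1)) :
    (X a * X b : MvPolynomial (Vx Gam) K) ∈ SR K Gam := by
  have hab : a ≠ b := by rintro rfl; exact h (Or.inl subset_rfl)
  refine Ideal.subset_span ⟨{a, b}, fun h' => h (h' a (by simp) b (by simp)), ?_⟩
  rw [Finset.prod_pair hab]

lemma sq_mem (v : Vx Gam) : (X v ^ 2 - th K v.1.card * X v : MvPolynomial (Vx Gam) K) ∈ SR K Gam := by
  rw [th, ← Finset.add_sum_erase _ _ (a := v) (by simp), add_mul, sq, sub_add_cancel_left,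
    Finset.sum_mul]
  refine neg_mem (Submodule.sum_mem _ fun y hy => XX_mem fun h => ?_)
  simp only [Finset.mem_erase, Finset.mem_filter] at hy
  exact hy.1 (eq_of_card h hy.2.2)

lemma dim_le {A B : Type u} [CommRing A] [CommRing B] (f : A →+* B) (hf : f.IsIntegral) :
    ringKrullDim B ≤ ringKrullDim A := by
  letI := f.toAlgebra
  haveI : Algebra.IsIntegral A B := ⟨hf⟩
  refine Order.krullDim_le_of_strictMono (fun p => PrimeSpectrum.comap f p) ?_
  intro p q h
  exact Ideal.IsIntegral.comap_lt_comap (R := A) (I := p.asIdeal) (J := q.asIdeal) h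

lemma integral_of_gens {A B : Type u} {σ : Type} [CommRing A] [CommRing B] (f : A →+* B)
    (g : MvPolynomial σ K →+* B) (hg : Function.Surjective g)
    (hC : ∀ c : K, ∃ a, f a = g (C c)) (hX : ∀ i, ∃ a, g (X i) ^ 2 = f a * g (X i)) :
    f.IsIntegral := by
  intro b
  obtain ⟨p, rfl⟩ := hg b
  induction p using MvPolynomial.induction_on with
  | C c => obtain ⟨a, ha⟩ := hC c; rw [← ha]; exact f.isIntegralElem_map
  | add p q hp hq => rw [map_add]; exact hp.add _ hq
  | mul_X p i hp =>
    rw [map_mul]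
    refine hp.mul _ ?_
    obtain ⟨a, ha⟩ := hX i
    refine ⟨Polynomial.X ^ 2 - Polynomial.C a * Polynomial.X, by monicity!, ?_⟩
    simp [ha]

lemma dim3 : ringKrullDim (MvPolynomial (Fin 3) K) = 3 := by
  rw [MvPolynomial.ringKrullDim_of_isNoetherianRing, ringKrullDim_eq_zero_of_field]
  simp

/-- a ring map that kills all variables outside a chain kills the Stanley-Reisner ideal -/
lemma SR_le_ker {B : Type u} [CommRing B] (ψ : MvPolynomial (Vx Gam) K →+* B)
    (T : Finset (Vx Gam)) (hT : IsChainFace T) (h : ∀ w ∉ T, ψ (X w) = 0) :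
    SR K Gam ≤ RingHom.ker ψ := by
  rw [SR, Ideal.span_le]
  rintro _ ⟨s, hs, rfl⟩
  have : ¬ s ⊆ T := fun h' => hs (chain_down _ _ h' hT)
  obtain ⟨w, hw, hw'⟩ := Finset.not_subset.mp this
  show ψ _ = 0
  rw [map_prod]
  exact Finset.prod_eq_zero hw (h w hw')

lemma dim_SR : ringKrullDim (MvPolynomial (Vx Gam) K ⧸ SR K Gam) = 3 := by
  apply le_antisymm
  · rw [← dim3 (K := K)]
    refine dim_le ((Ideal.Quotient.mk (SR K Gam)).comp
      (aeval (R := K) ![th K 1, th K 2, th K 3]).toRingHom) ?_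
    refine integral_of_gens _ (Ideal.Quotient.mk (SR K Gam)) Ideal.Quotient.mk_surjective
      (fun c => ⟨C c, by simp⟩) ?_
    intro v
    have h := Ideal.Quotient.eq.mpr (sq_mem (K := K) v)
    rw [map_pow, map_mul] at h
    rcases card_mem v with h5 | h5 | h5 <;> rw [h5] at h
    · exact ⟨X 0, by simpa using h⟩
    · exact ⟨X 1, by simpa using h⟩
    · exact ⟨X 2, by simpa using h⟩
  · rw [← dim3 (K := K)]
    let ψ : MvPolynomial (Vx Gam) K →ₐ[K] MvPolynomial (Fin 3) K :=
      aeval fun w => if w = c 0 then X 0 else if w = c 6 then X 1 else if w = c 18 then X 2 else 0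
    have hk : SR K Gam ≤ RingHom.ker ψ.toRingHom := by
      refine SR_le_ker _ {c 0, c 6, c 18} (by unfold IsChainFace; decide +kernel) ?_
      intro w hw
      simp only [Finset.mem_insert, Finset.mem_singleton, not_or] at hw
      simp [ψ, hw]
    refine ringKrullDim_le_of_surjective (Ideal.Quotient.lift _ ψ.toRingHom hk) ?_
    intro p
    refine ⟨Ideal.Quotient.mk _ (aeval (R := K) ![X (c 0), X (c 6), X (c 18)] p), ?_⟩
    have : ψ.comp (aeval (R := K) ![X (c 0), X (c 6), X (c 18)]) = AlgHom.id _ _ := by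
      ext1 i
      fin_cases i <;> simp [ψ, c_inj.eq_iff]
    exact congrArg (fun f : MvPolynomial (Fin 3) K →ₐ[K] MvPolynomial (Fin 3) K => f p) this

omit [DecidableEq V] in
lemma hc_mul {l : MvPolynomial V K} (hl : l.IsHomogeneous 1) (n : ℕ) (P : MvPolynomial V K) :
    homogeneousComponent (n + 1) (l * P) = l * homogeneousComponent n P := by
  induction P using MvPolynomial.induction_on' with
  | monomial u c =>
    have hu : (monomial u c : MvPolynomial V K).IsHomogeneous u.degree := isHomogeneous_monomial c rfl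
    rw [homogeneousComponent_of_mem ((mem_homogeneousSubmodule _ _).mpr hu),
      homogeneousComponent_of_mem ((mem_homogeneousSubmodule _ _).mpr (hl.mul hu))]
    by_cases h : n = u.degree
    · rw [if_pos h, if_pos (by omega)]
    · rw [if_neg h, if_neg (by omega), mul_zero]
  | add p q hp hq => rw [mul_add, map_add, map_add, hp, hq, mul_add]

noncomputable def lin (t : Vx Gam → K) : MvPolynomial (Vx Gam) K := ∑ w, C (t w) * X w

lemma lin_rep {l : MvPolynomial (Vx Gam) K} (hl : l.IsHomogeneous 1) : ∃ p, l = lin p := by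
  have h := (mem_homogeneousSubmodule _ _).mpr hl
  rw [homogeneousSubmodule_one_eq_span_X, Submodule.mem_span_range_iff_exists_fun] at h
  obtain ⟨p, rfl⟩ := h
  exact ⟨p, by simp [lin, smul_eq_C_mul]⟩

lemma coeff_lin (t : Vx Gam → K) (w : Vx Gam) : coeff (Finsupp.single w 1) (lin t) = t w := by
  simp [lin, coeff_sum, coeff_X, Finsupp.single_left_inj]

lemma exists_sol {m n : ℕ} (h : m < n) (M : Fin m → Fin n → K) :
    ∃ c : Fin n → K, c ≠ 0 ∧ ∀ r, ∑ j, M r j * c j = 0 := by
  have := LinearMap.ker_ne_bot_of_finrank_lt (f := Matrix.mulVecLin (Matrix.of M)) (by simpa)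
  obtain ⟨c, hc, hc0⟩ := Submodule.exists_mem_ne_zero_of_ne_bot this
  refine ⟨c, hc0, fun r => ?_⟩
  have := congrFun (LinearMap.mem_ker.mp hc) r
  simpa [Matrix.mulVec, dotProduct] using this

lemma indep (t : Fin 3 → Vx Gam → K)
    (hfin : Module.Finite K (MvPolynomial (Vx Gam) K ⧸
      (SR K Gam ⊔ Ideal.span (Set.range fun i => lin (t i)))))
    (w : Fin 3 → Vx Gam) (hw : Function.Injective w) (hch : IsChainFace (Finset.univ.image w))
    (e : Fin 3 → K) (he : ∀ k, ∑ j, e j * t j (w k) = 0) : e = 0 := by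
  by_contra he0
  have hdet : (Matrix.of fun j k => t j (w k)).det = 0 :=
    Matrix.exists_vecMul_eq_zero_iff.mp ⟨e, he0, funext fun k => he k⟩
  obtain ⟨z, hz0, hz⟩ := Matrix.exists_mulVec_eq_zero_iff.mpr hdet
  let ζ : Vx Gam → K := fun v => ∑ k, if w k = v then z k else 0
  have hζ : ∀ k, ζ (w k) = z k := by intro k; simp [ζ, hw.eq_iff]
  let ψ : MvPolynomial (Vx Gam) K →ₐ[K] Polynomial K :=
    aeval fun v => Polynomial.C (ζ v) * Polynomial.X
  have hk : SR K Gam ⊔ Ideal.span (Set.range fun i => lin (t i)) ≤ RingHom.ker ψ.toRingHom := by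
    refine sup_le (SR_le_ker _ _ hch fun v hv => ?_) ?_
    · have : ζ v = 0 := Finset.sum_eq_zero fun k _ => if_neg fun h => hv (by simp [← h])
      simp [ψ, this]
    · rw [Ideal.span_le]
      rintro _ ⟨i, rfl⟩
      have h1 : ∑ v, t i v * ζ v = 0 := by
        have := congrFun hz i
        simp only [Matrix.mulVec, dotProduct, Matrix.of_apply, Pi.zero_apply] at this
        simp only [ζ, Finset.mul_sum]
        rw [Finset.sum_comm]
        refine Eq.trans (Finset.sum_congr rfl fun k _ => ?_) this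
        simp
      show ψ (lin (t i)) = 0
      have h2 : ψ (lin (t i)) = Polynomial.C (∑ v, t i v * ζ v) * Polynomial.X := by
        simp [ψ, lin, Finset.sum_mul, mul_assoc]
      rw [h2, h1]; simp
  obtain ⟨k, hk0⟩ := Function.ne_iff.mp hz0
  have hs : Function.Surjective (Ideal.Quotient.liftₐ _ ψ hk) := by
    intro p
    refine ⟨Ideal.Quotient.mk _ (Polynomial.aeval (C (z k)⁻¹ * X (w k)) p), ?_⟩
    have h3 : ψ (C (z k)⁻¹ * X (w k)) = Polynomial.X := by
      have : (z k)⁻¹ * z k = 1 := inv_mul_cancel₀ hk0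
      rw [map_mul, algHom_C, Polynomial.algebraMap_eq]
      simp only [ψ, aeval_X, hζ]
      rw [← mul_assoc, ← map_mul, this, map_one, one_mul]
    show ψ _ = p
    rw [← Polynomial.aeval_algHom_apply, h3, Polynomial.aeval_X_left_apply]
  exact Polynomial.not_finite (R := K)
    (Module.Finite.of_surjective (Ideal.Quotient.liftₐ _ ψ hk).toLinearMap hs)

lemma X_lin_mem (v : Vx Gam) (p : Vx Gam → K)
    (h : ∀ w, (v.1 ⊆ w.1 ∨ w.1 ⊆ v.1) → p w = 0) : X v * lin p ∈ SR K Gam := by
  rw [lin, Finset.mul_sum]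
  refine Submodule.sum_mem _ fun w _ => ?_
  by_cases hw : v.1 ⊆ w.1 ∨ w.1 ⊆ v.1
  · simp [h w hw]
  · rw [mul_left_comm]; exact Ideal.mul_mem_left _ _ (XX_mem hw)

lemma nb5 : ∀ i, (cd 5 ⊆ cd i ∨ cd i ⊆ cd 5) → i = 5 ∨ i = 10 ∨ i = 14 ∨ i = 21 := by decide +kernel

lemma nb10 : ∀ i, (cd 10 ⊆ cd i ∨ cd i ⊆ cd 10) → i = 10 ∨ i = 5 ∨ i = 0 ∨ i = 21 := by
  decide +kernel

lemma noninj (t : Fin 3 → Vx Gam → K) (s : Vx Gam → K)
    (hfin : Module.Finite K (MvPolynomial (Vx Gam) K ⧸
      (SR K Gam ⊔ Ideal.span (Set.range fun i => lin (t i))))) :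
    ∃ u : MvPolynomial (Vx Gam) K, u.IsHomogeneous 1 ∧
      u ∉ SR K Gam ⊔ Ideal.span (Set.range fun i => lin (t i)) ∧
      lin s * u ∈ SR K Gam ⊔ Ideal.span (Set.range fun i => lin (t i)) := by
  let row : Vx Gam → Vx Gam → K → K → Fin 8 → K := fun a b x y =>
    ![x * t 0 a, x * t 1 a, x * t 2 a, x * s a, y * t 0 b, y * t 1 b, y * t 2 b, y * s b]
  obtain ⟨r, hr0, hr⟩ := exists_sol (K := K) (m := 7) (n := 8) (by norm_num)
    ![row (c 5) (c 5) 1 0, row (c 14) (c 14) 1 0, row (c 21) (c 21) 1 0, row (c 10) (c 10) 0 1,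
      row (c 0) (c 0) 0 1, row (c 21) (c 21) 0 1, row (c 10) (c 5) 1 1]
  have q0 := hr 0
  have q1 := hr 1
  have q2 := hr 2
  have q3 := hr 3
  have q4 := hr 4
  have q5 := hr 5
  have q6 := hr 6
  simp [row, Fin.sum_univ_eight] at q0 q1 q2 q3 q4 q5 q6
  set p : Vx Gam → K := fun w => t 0 w * r 0 + t 1 w * r 1 + t 2 w * r 2 + s w * r 3 with hp
  set q : Vx Gam → K := fun w => t 0 w * r 4 + t 1 w * r 5 + t 2 w * r 6 + s w * r 7 with hq
  refine ⟨C (r 3) * X (c 5) + C (r 7) * X (c 10),
    (isHomogeneous_C_mul_X _ _).add (isHomogeneous_C_mul_X _ _), ?_, ?_⟩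
  · intro hu
    obtain ⟨i, hi, x, hx, e⟩ := Submodule.mem_sup.mp hu
    obtain ⟨g, rfl⟩ := Ideal.mem_span_range_iff_exists_fun.mp hx
    have hco : ∀ w : Vx Gam, ∑ j, coeff 0 (g j) * t j w =
        (if c 5 = w then r 3 else 0) + (if c 10 = w then r 7 else 0) := by
      intro w
      have e1 := congrArg (coeff (Finsupp.single w 1)) e
      rw [coeff_add, coeff_SR hi (by simp [IsChainFace]), zero_add, coeff_sum] at e1
      have e2 : ∀ j, coeff (Finsupp.single w 1) (g j * lin (t j)) = coeff 0 (g j) * t j w := by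
        intro j
        have h1 : (lin (t j)).IsHomogeneous 1 :=
          IsHomogeneous.sum _ _ _ fun v _ => isHomogeneous_C_mul_X _ v
        have h2 := congrArg (coeff (Finsupp.single w 1)) (hc_mul h1 0 (g j))
        rw [coeff_homogeneousComponent, if_pos (by simp), homogeneousComponent_zero, mul_comm _ (C _),
          coeff_C_mul, coeff_lin, mul_comm (lin _)] at h2
        exact h2
      simp only [e2] at e1
      rw [e1]
      simp [coeff_X, Finsupp.single_left_inj]
    have z := indep t hfin ![c 0, c 6, c 18] (by decide +kernel)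
      (by unfold IsChainFace; decide +kernel) (fun j => coeff 0 (g j))
      (by intro k; rw [hco]; fin_cases k <;> simp [c_inj.eq_iff])
    have z' : ∀ j, coeff 0 (g j) = 0 := fun j => congrFun z j
    have r3 : r 3 = 0 := by simpa [z', c_inj.eq_iff] using (hco (c 5)).symm
    have r7 : r 7 = 0 := by simpa [z', c_inj.eq_iff] using (hco (c 10)).symm
    have z1 := indep t hfin ![c 5, c 14, c 21] (by decide +kernel)
      (by unfold IsChainFace; decide +kernel) ![r 0, r 1, r 2]
      (by
        intro k; fin_cases k <;> simp [Fin.sum_univ_three]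
        · linear_combination q0 - s (c 5) * r3
        · linear_combination q1 - s (c 14) * r3
        · linear_combination q2 - s (c 21) * r3)
    have z2 := indep t hfin ![c 10, c 0, c 21] (by decide +kernel)
      (by unfold IsChainFace; decide +kernel) ![r 4, r 5, r 6]
      (by
        intro k; fin_cases k <;> simp [Fin.sum_univ_three]
        · linear_combination q3 - s (c 10) * r7
        · linear_combination q4 - s (c 0) * r7
        · linear_combination q5 - s (c 21) * r7)
    apply hr0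
    funext k
    fin_cases k
    exacts [congrFun z1 0, congrFun z1 1, congrFun z1 2, r3, congrFun z2 0, congrFun z2 1,
      congrFun z2 2, r7]
  · have hlin : ∀ (a b d e : K), lin (fun w => t 0 w * a + t 1 w * b + t 2 w * d + s w * e) =
        C a * lin (t 0) + C b * lin (t 1) + C d * lin (t 2) + C e * lin s := by
      intro a b d e
      simp only [lin, Finset.mul_sum, ← Finset.sum_add_distrib, map_add, map_mul]
      exact Finset.sum_congr rfl fun w _ => by ring
    have hupd : ∀ (f : Vx Gam → K) (v : Vx Gam),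
        lin f = C (f v) * X v + lin (Function.update f v 0) := by
      intro f v
      rw [lin, lin, ← Finset.add_sum_erase _ _ (Finset.mem_univ v),
        ← Finset.add_sum_erase _ _ (Finset.mem_univ v)]
      simp only [Function.update_self, map_zero, zero_mul, zero_add, add_right_inj]
      exact Finset.sum_congr rfl fun w hw => by
        rw [Function.update_of_ne (Finset.mem_erase.mp hw).1]
    have m1 : X (c 5) * lin (Function.update p (c 10) 0) ∈ SR K Gam := by
      refine X_lin_mem _ _ fun w hw => ?_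
      obtain ⟨i, rfl⟩ := c_surj w
      rcases nb5 i hw with rfl | rfl | rfl | rfl <;> simp [c_inj.eq_iff, *]
    have m2 : X (c 10) * lin (Function.update q (c 5) 0) ∈ SR K Gam := by
      refine X_lin_mem _ _ fun w hw => ?_
      obtain ⟨i, rfl⟩ := c_surj w
      rcases nb10 i hw with rfl | rfl | rfl | rfl <;> simp [c_inj.eq_iff, *]
    have e1 := hupd p (c 10)
    have e2 := hupd q (c 5)
    rw [hp, hlin, ← hp] at e1
    rw [hq, hlin, ← hq] at e2
    have e3 : (C (p (c 10)) : MvPolynomial (Vx Gam) K) + C (q (c 5)) = 0 := by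
      rw [← map_add, ← map_zero C]; congr 1; simp only [hp, hq]; linear_combination q6
    have e : lin s * (C (r 3) * X (c 5) + C (r 7) * X (c 10)) =
        (X (c 5) * lin (Function.update p (c 10) 0) + X (c 10) * lin (Function.update q (c 5) 0)) +
        ∑ j, (-(X (c 5) * C (![r 0, r 1, r 2] j) + X (c 10) * C (![r 4, r 5, r 6] j))) * lin (t j) := by
      simp only [Fin.sum_univ_three, Matrix.cons_val_zero, Matrix.cons_val_one, Matrix.cons_val]
      linear_combination X (c 5) * e1 + X (c 10) * e2 + X (c 5) * X (c 10) * e3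
    rw [e]
    exact Submodule.add_mem_sup (add_mem m1 m2) (Ideal.mem_span_range_iff_exists_fun.mpr ⟨_, rfl⟩)

lemma nonsurj (Θ : Fin 3 → MvPolynomial (Vx Gam) K) (l : MvPolynomial (Vx Gam) K)
    (hΘ : ∀ i, (Θ i).IsHomogeneous 1) (hl : l.IsHomogeneous 1) :
    ∃ h : MvPolynomial (Vx Gam) K, h.IsHomogeneous 2 ∧
      ∀ P, h - l * P ∉ SR K Gam ⊔ Ideal.span (Set.range Θ) := by
  by_contra hcon
  push Not at hcon
  let PP := {ab : Vx Gam × Vx Gam // ab.1.1 ⊆ ab.2.1 ∧ 5 ∉ ab.2.1}
  let mo : PP → (Vx Gam →₀ ℕ) := fun ab => Finsupp.single ab.1.1 1 + Finsupp.single ab.1.2 1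
  let Λ : MvPolynomial (Vx Gam) K →ₗ[K] (PP → K) := LinearMap.pi fun ab => lcoeff K (mo ab)
  have hΛ : ∀ f ab, Λ f ab = coeff (mo ab) f := fun _ _ => rfl
  let fm : Fin 4 → MvPolynomial (Vx Gam) K := Fin.cons l Θ
  have hfm : ∀ k, (fm k).IsHomogeneous 1 := fun k => Fin.cases hl hΘ k
  let T := Submodule.span K (Set.range fun kw : Fin 4 × {a : Vx Gam // 5 ∉ a.1} =>
    Λ (fm kw.1 * X kw.2.1))
  have h1 : ∀ k g, Λ (fm k * g) ∈ T := by
    intro k g
    have e : Λ (fm k * g) = Λ (homogeneousComponent 2 (fm k * g)) := by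
      funext ab
      rw [hΛ, hΛ, coeff_homogeneousComponent, if_pos (by simp [mo])]
    obtain ⟨p, hp⟩ := lin_rep (homogeneousComponent_isHomogeneous 1 g)
    rw [e, hc_mul (hfm k) 1, hp, lin, Finset.mul_sum, map_sum]
    refine Submodule.sum_mem _ fun w _ => ?_
    rw [mul_left_comm, ← smul_eq_C_mul, map_smul]
    refine T.smul_mem _ ?_
    by_cases hw : 5 ∈ w.1
    · have : Λ (fm k * X w) = 0 := by
        funext ab
        rw [hΛ, coeff_mul_X', if_neg]
        · rfl
        · have n1 : ab.1.1 ≠ w := by rintro rfl; exact ab.2.2 (ab.2.1 hw)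
          have n2 : ab.1.2 ≠ w := by rintro rfl; exact ab.2.2 hw
          simp [mo, n1, n2]
      rw [this]; exact T.zero_mem
    · exact Submodule.subset_span ⟨(k, ⟨w, hw⟩), rfl⟩
  have h2 : ∀ ab : PP, (Pi.single ab 1 : PP → K) ∈ T := by
    intro ab
    obtain ⟨P, hP⟩ := hcon (X ab.1.1 * X ab.1.2) ((isHomogeneous_X _ _).mul (isHomogeneous_X _ _))
    obtain ⟨i, hi, x, hx, e⟩ := Submodule.mem_sup.mp hP
    obtain ⟨g, rfl⟩ := Ideal.mem_span_range_iff_exists_fun.mp hx
    have e1 : Λ (X ab.1.1 * X ab.1.2) = Pi.single ab 1 := by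
      funext a'
      rw [hΛ, X, X, monomial_mul, coeff_monomial, Pi.single_apply, mul_one]
      congr 1
      apply propext
      constructor
      · intro h
        rw [Finsupp.single_add_single_eq_single_add_single one_ne_zero one_ne_zero] at h
        apply Subtype.ext
        rcases h with ⟨a1, a2⟩ | ⟨-, a1, a2⟩ | ⟨a1, -⟩
        · exact (Prod.ext a1 a2).symm
        · have b1 := ab.2.1
          have b2 := a'.2.1
          rw [a1, a2] at b1
          have b3 : a'.1.1 = a'.1.2 := Subtype.ext (Finset.Subset.antisymm b2 b1)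
          exact Prod.ext (by rw [a1, b3]) (by rw [a2, b3])
        · simp at a1
      · rintro rfl; rfl
    have e2 : Λ i = 0 := by
      funext a'
      rw [hΛ]
      refine coeff_SR hi (chain_down _ {a'.1.1, a'.1.2} ?_ ?_)
      · exact Finsupp.support_add.trans (Finset.union_subset
          (Finsupp.support_single_subset.trans (by simp))
          (Finsupp.support_single_subset.trans (by simp)))
      · have := a'.2.1
        intro x hx y hy
        simp only [Finset.mem_insert, Finset.mem_singleton] at hx hy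
        rcases hx with rfl | rfl <;> rcases hy with rfl | rfl <;> simp [this]
    have e3 : X ab.1.1 * X ab.1.2 = i + fm 0 * P + ∑ j : Fin 3, fm j.succ * g j := by
      simp only [fm, Fin.cons_zero, Fin.cons_succ, mul_comm (Θ _)]
      linear_combination -e
    rw [← e1, e3, map_add, map_add, e2, zero_add, map_sum]
    exact add_mem (h1 _ _) (Submodule.sum_mem _ fun j _ => h1 _ _)
  have h3 : T = ⊤ := by
    rw [eq_top_iff, ← (Pi.basisFun K PP).span_eq, Submodule.span_le]
    rintro _ ⟨ab, rfl⟩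
    simpa using h2 ab
  have h4 : Module.finrank K T ≤ Fintype.card (Fin 4 × {a : Vx Gam // 5 ∉ a.1}) :=
    finrank_range_le_card _
  rw [h3, finrank_top, Module.finrank_fintype_fun_eq_card, Fintype.card_prod, cardV0, cardP] at h4
  simp at h4

/-- `S / I` is Cohen-Macaulay (graded criterion): it has a regular sequence of linear forms whose
length is its Krull dimension. -/
def IsCM {σ : Type} (I : Ideal (MvPolynomial σ K)) : Prop :=
  ∃ rs : List (MvPolynomial σ K), (∀ r ∈ rs, r.IsHomogeneous 1) ∧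
    IsRegular (MvPolynomial σ K ⧸ I) rs ∧ ringKrullDim (MvPolynomial σ K ⧸ I) = rs.length

/-- `Θ` is a linear system of parameters for `S / I` (with `d` the number of forms). -/
def IsLsop {σ : Type} {d : ℕ} (I : Ideal (MvPolynomial σ K)) (Θ : Fin d → MvPolynomial σ K) : Prop :=
  (∀ i, (Θ i).IsHomogeneous 1) ∧
    Module.Finite K (MvPolynomial σ K ⧸ (I ⊔ Ideal.span (Set.range Θ)))

/-- The degree `i` piece of `S / I`. -/
def piece {σ : Type} (I : Ideal (MvPolynomial σ K)) (i : ℕ) : Set (MvPolynomial σ K ⧸ I) :=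
  Ideal.Quotient.mk I '' {p | p.IsHomogeneous i}

/-- `S / I` has the weak Lefschetz property. -/
def HasWLP {σ : Type} (I : Ideal (MvPolynomial σ K)) : Prop :=
  ∃ l ∈ piece I 1, ∀ i, Set.InjOn (fun a => l * a) (piece I i) ∨
    Set.SurjOn (fun a => l * a) (piece I i) (piece I (i + 1))

lemma lsop_ex : IsLsop (SR K Gam) ![th K 1, th K 2, th K 3] := by
  refine ⟨fun i => by fin_cases i <;> exact th_hom _, ?_⟩
  set I := SR K Gam ⊔ Ideal.span (Set.range ![th K 1, th K 2, th K 3]) with hI
  haveI : Algebra.IsIntegral K (MvPolynomial (Vx Gam) K ⧸ I) := by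
    refine ⟨integral_of_gens (algebraMap K _) (Ideal.Quotient.mk I) Ideal.Quotient.mk_surjective
      (fun c => ⟨c, rfl⟩) fun v => ⟨0, ?_⟩⟩
    rw [map_zero, zero_mul, ← map_pow, Ideal.Quotient.eq_zero_iff_mem]
    have h1 : th K v.1.card ∈ I := by
      refine Submodule.mem_sup_right (Ideal.subset_span ?_)
      rcases card_mem v with h | h | h <;> rw [h]
      exacts [⟨0, rfl⟩, ⟨1, rfl⟩, ⟨2, rfl⟩]
    have := add_mem (Submodule.mem_sup_left (sq_mem (K := K) v) : _ ∈ I) (I.mul_mem_right (X v) h1)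
    rwa [sub_add_cancel] at this
  exact Algebra.IsIntegral.finite

theorem result (K : Type u) [Field K] :
    ∃ (n : ℕ) (G : Finset (Finset (Fin n))), IsComplex G ∧ G.sup Finset.card = 3 ∧
      IsCM (SR K G) ∧ (∃ Θ : Fin 3 → MvPolynomial (Vx G) K, IsLsop (SR K G) Θ) ∧
      ∀ Θ : Fin 3 → MvPolynomial (Vx G) K, IsLsop (SR K G) Θ →
        ¬ HasWLP (SR K G ⊔ Ideal.span (Set.range Θ)) := by
  refine ⟨6, Gam, by unfold IsComplex; decide +kernel, by decide +kernel,
    ⟨[th K 1, th K 2, th K 3], ?_, reg_SR, dim_SR⟩, ⟨_, lsop_ex⟩, ?_⟩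
  · intro r hr
    simp only [List.mem_cons, List.not_mem_nil, or_false] at hr
    rcases hr with rfl | rfl | rfl <;> exact th_hom _
  · rintro Θ ⟨hΘ, hfin⟩ ⟨_, ⟨l, hl, rfl⟩, h⟩
    rcases h 1 with h | h
    · choose t ht using fun i => lin_rep (hΘ i)
      obtain rfl : Θ = fun i => lin (t i) := funext ht
      obtain ⟨s, rfl⟩ := lin_rep hl
      obtain ⟨u, hu, h1, h2⟩ := noninj t s hfin
      apply h1
      rw [← Ideal.Quotient.eq_zero_iff_mem] at h2 ⊢
      refine h ⟨u, hu, rfl⟩ ⟨0, isHomogeneous_zero _ _ _, rfl⟩ ?_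
      simp only [← map_mul, h2, map_zero, mul_zero]
    · obtain ⟨f, hf, h1⟩ := nonsurj Θ l hΘ hl
      obtain ⟨_, ⟨P, -, rfl⟩, e⟩ := h ⟨f, hf, rfl⟩
      apply h1 P
      rw [← Ideal.Quotient.eq, map_mul]
      exact e.symm

end Pool.Agent.Results.MP_28b0d6_al.SubdivisionFailsWLP
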